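import Pool.Agent.N119.PSL.Seg
import Mathlib
import Pool.Agent.N119.PS.Stm
import Pool.Agent.H67R4.SR.Axis

/-!
Part CYC of project PSC (helper119): simple cycles in the graph of words come from periodic words.
-/

set_option autoImplicit false

/-! Written by helper281 (originally in `Pool/Agent/N281/PSC/CYC.lean`). -/

namespace Pool.Agent.N281.PSC.CYC

open Pool.Agent.H472R3 Pool.Agent.H67R3.FSR Pool.Agent.H67R4.SR Pool.Agent.N119.PS

theorem t : Pool.Agent.N119.PS.S_CYC := by
  intro N n hn m z hm hnorm hper hinj hstep
  have hlen : ∀ j, (z j).toWord.length = n := fun j => hnorm j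
  have hred : ∀ j, FreeGroup.IsReduced (z j).toWord := fun j => FreeGroup.isReduced_toWord
  have hw : ∀ j, (z j).toWord.tail = (z (j + 1)).toWord.dropLast := by
    intro j
    have h1 : FreeGroup.IsReduced (z j).toWord.tail :=
      (hred j).seg (List.tail_suffix _).isInfix
    have h2 : FreeGroup.IsReduced (z (j + 1)).toWord.dropLast :=
      (hred (j + 1)).seg (List.dropLast_prefix _).isInfix
    have h3 := congrArg FreeGroup.toWord (hstep j)
    unfold tl ini at h3
    rwa [toWord_mk_red h1, toWord_mk_red h2] at h3
  have hex : ∀ j, ∃ a, (z j).toWord[0]? = some a := by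
    intro j
    have h1 : 0 < (z j).toWord.length := by rw [hlen]; omega
    exact ⟨_, List.getElem?_eq_getElem h1⟩
  choose c hc using hex
  have hget : ∀ t j, t < n → (z j).toWord[t]? = some (c (j + t)) := by
    intro t
    induction t with
    | zero => intro j _; exact hc j
    | succ t ih =>
      intro j ht
      have h1 : (z j).toWord[t + 1]? = (z j).toWord.tail[t]? := by rw [List.getElem?_tail]
      rw [h1, hw, List.getElem?_dropLast, if_pos (by rw [hlen]; omega), ih (j + 1) (by omega)]
      congr 2
      ring
  have hword : ∀ j, (z j).toWord = (List.range n).map fun t => c (j + t) := by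
    intro j
    apply List.ext_getElem?
    intro t
    rcases Nat.lt_or_ge t n with ht | ht
    · rw [hget t j ht]
      rw [List.getElem?_map, List.getElem?_range ht]
      rfl
    · rw [List.getElem?_eq_none (by rw [hlen]; exact ht),
        List.getElem?_eq_none (by rw [List.length_map, List.length_range]; exact ht)]
  refine ⟨⟨c, m, hm, ?_, ?_, ?_⟩, rfl, ?_⟩
  · intro j
    have h1 := hc (j + m)
    rw [hper j, hc j] at h1
    exact (Option.some.inj h1).symm
  · intro j
    have h0 := hget 0 j (by omega)
    have h1 := hget 1 j (by omega)
    have h2 := hred j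
    have h3 := hlen j
    rcases hW : (z j).toWord with _ | ⟨a, _ | ⟨b, l⟩⟩
    · rw [hW] at h3
      simp at h3
      omega
    · rw [hW] at h3
      simp at h3
      omega
    · rw [hW] at h0 h1 h2
      simp only [List.getElem?_cons_zero, List.getElem?_cons_succ, Option.some.injEq,
        add_zero] at h0 h1
      rw [← h0, ← h1]
      unfold FreeGroup.IsReduced at h2
      exact reduced_iff.1 (List.isChain_cons_cons.1 h2).1
  · intro i hi j hj h
    apply hinj i hi j hj
    apply FreeGroup.toWord_injective
    rw [hword, hword]
    exact congrArg (fun f => List.map f (List.range n)) (funext fun t => h t)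
  · intro j
    unfold PerWord.el PerWord.wd
    show FreeGroup.mk ((List.range n).map fun t => c (j + t)) = z j
    rw [← hword, FreeGroup.mk_toWord]

end Pool.Agent.N281.PSC.CYC
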