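import Pool.Agent.N119.PSL.Seg
import Pool.Agent.N119.PS.Stm2

set_option autoImplicit false

/-! Written by helper896 (originally in `Pool/Agent/N896/PSC/MKV.lean`). -/

/-!
# Project PSC2, leaf MKV: Markov property from the product formula
-/

namespace Pool.Agent.N896.PSC.MKV

open Pool.Agent.H472R3 Pool.Agent.H67R3.FSR Pool.Agent.H67R4.SR MeasureTheory Topology Filter
open Pool.Agent.N119.PS
open scoped ENNReal NNReal

variable {N : ℕ}

theorem toWord_mul_red {u v : FreeGroup (Fin N)} (h : FreeGroup.IsReduced (u.toWord ++ v.toWord)) :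
    (u * v).toWord = u.toWord ++ v.toWord := by
  rw [FreeGroup.toWord_mul, h.reduce_eq]

theorem norm_mul_red {u v : FreeGroup (Fin N)} (h : FreeGroup.IsReduced (u.toWord ++ v.toWord)) :
    (u * v).norm = u.norm + v.norm := by
  unfold FreeGroup.norm
  rw [toWord_mul_red h, List.length_append]

theorem t (h : S_FRM) : S_MKV := by
  intro N A hA μ hμ
  obtain ⟨x, k, a, b, hk, hm, ha, hb, hL⟩ := h N A hA μ hμ
  refine ⟨k, hk, fun t v w hv hr => ?_⟩
  have htv : FreeGroup.IsReduced (t.toWord ++ v.toWord) :=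
    hr.seg ⟨[], w.toWord, by simp⟩
  have hvw : FreeGroup.IsReduced (v.toWord ++ w.toWord) :=
    hr.seg ⟨t.toWord, [], by simp⟩
  have htvw : FreeGroup.IsReduced ((t * v).toWord ++ w.toWord) := by
    rw [toWord_mul_red htv]; exact hr
  have htvw' : FreeGroup.IsReduced (t.toWord ++ (v * w).toWord) := by
    rw [toWord_mul_red hvw, ← List.append_assoc]; exact hr
  have n1 : k ≤ (t * v).norm := by rw [norm_mul_red htv]; omega
  have n2 : k ≤ (v * w).norm := by rw [norm_mul_red hvw]; omega
  have n3 : k ≤ (t * v * w).norm := by rw [norm_mul_red htvw]; omega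
  have e1 : a (t * v * w) = a (t * v) := ha _ _ n1 htvw
  have e2 : b (t * v * w) = b (v * w) := by
    rw [mul_assoc]; exact hb _ _ n2 htvw'
  have e3 : b (t * v) = b v := hb _ _ hv htv
  have e4 : a (v * w) = a v := ha _ _ hv hvw
  rw [hm _ n3, hm _ hv, hm _ n1, hm _ n2, e1, e2, e3, e4]
  have e5 : ENNReal.ofReal (Real.exp (-critExp A * (lenFn A x).L (t * v * w))) *
      ENNReal.ofReal (Real.exp (-critExp A * (lenFn A x).L v)) =
      ENNReal.ofReal (Real.exp (-critExp A * (lenFn A x).L (t * v))) *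
      ENNReal.ofReal (Real.exp (-critExp A * (lenFn A x).L (v * w))) := by
    rw [← ENNReal.ofReal_mul (Real.exp_pos _).le, ← ENNReal.ofReal_mul (Real.exp_pos _).le,
      ← Real.exp_add, ← Real.exp_add, ← mul_add, ← mul_add, hL t v w hv hr]
  calc ENNReal.ofReal (Real.exp (-critExp A * (lenFn A x).L (t * v * w))) * a (t * v) * b (v * w) *
        (ENNReal.ofReal (Real.exp (-critExp A * (lenFn A x).L v)) * a v * b v)
      = (ENNReal.ofReal (Real.exp (-critExp A * (lenFn A x).L (t * v * w))) *
        ENNReal.ofReal (Real.exp (-critExp A * (lenFn A x).L v))) *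
        (a (t * v) * b (v * w) * a v * b v) := by ring
    _ = _ := by rw [e5]; ring

end Pool.Agent.N896.PSC.MKV
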