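import Pool.Agent.N119.PSL.Seg
import Mathlib
import Pool.Agent.N119.PS.Stm3

/-!
# Project PSC3 (helper119), leaf Z1 (helper866): elementary properties of the relative Poincare series
-/

set_option autoImplicit false

/-! Written by helper866 (originally in `Pool/Agent/N866/PSC3/Z1.lean`). -/

namespace Pool.Agent.N866.PSC3.Z1

open Pool.Agent.H472R3 Pool.Agent.H67R3.FSR Pool.Agent.H67R4.SR MeasureTheory Topology Filter
open Pool.Agent.N119.PS

variable {N : ℕ}

theorem toWord_mul_red {v w : FreeGroup (Fin N)}
    (h : FreeGroup.IsReduced (v.toWord ++ w.toWord)) : (v * w).toWord = v.toWord ++ w.toWord := by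
  have h1 : v * w = FreeGroup.mk (v.toWord ++ w.toWord) := by
    rw [← FreeGroup.mul_mk, FreeGroup.mk_toWord, FreeGroup.mk_toWord]
  rw [h1, toWord_mk_red h]

/-- the elements continuing `v` -/
def PP (v : FreeGroup (Fin N)) : Set (FreeGroup (Fin N)) := {g | v.toWord <+: g.toWord}

theorem inv_mul_red {v g : FreeGroup (Fin N)} (h : v.toWord <+: g.toWord) :
    FreeGroup.IsReduced (v.toWord ++ (v⁻¹ * g).toWord) := by
  obtain ⟨l, hl⟩ := h
  have hg : FreeGroup.IsReduced (v.toWord ++ l) := by
    rw [hl]; exact FreeGroup.isReduced_toWord
  have hl' : FreeGroup.IsReduced l := hg.seg ⟨v.toWord, [], by simp⟩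
  have h1 : g = v * FreeGroup.mk l := by
    have h2 : v * FreeGroup.mk l = FreeGroup.mk (v.toWord ++ l) := by
      rw [← FreeGroup.mul_mk, FreeGroup.mk_toWord]
    rw [h2, hl, FreeGroup.mk_toWord]
  rw [h1, inv_mul_cancel_left, toWord_mk_red hl']
  exact hg

/-- continuing words and continuations -/
noncomputable def eqv (v : FreeGroup (Fin N)) :
    {w : FreeGroup (Fin N) // FreeGroup.IsReduced (v.toWord ++ w.toWord)} ≃ PP v where
  toFun w := ⟨v * w.1, by
    show v.toWord <+: (v * w.1).toWord
    rw [toWord_mul_red w.2]
    exact List.prefix_append _ _⟩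
  invFun g := ⟨v⁻¹ * g.1, inv_mul_red g.2⟩
  left_inv w := Subtype.ext (inv_mul_cancel_left _ _)
  right_inv g := Subtype.ext (mul_inv_cancel_left _ _)

theorem Zs_eq (A : FTree N) (x : A.T) (s : ℝ) (v : FreeGroup (Fin N)) :
    Zs A x s v = ∑' g, (PP v).indicator
      (fun g => Real.exp (-s * ((lenFn A x).L g - (lenFn A x).L v))) g := by
  unfold Zs
  rw [← tsum_subtype (PP v) (fun g => Real.exp (-s * ((lenFn A x).L g - (lenFn A x).L v)))]
  exact (eqv v).tsum_eq
    (fun g : PP v => Real.exp (-s * ((lenFn A x).L g.1 - (lenFn A x).L v)))

/-- the decomposition of the set of the elements continuing `v` -/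
theorem ind_eq (v g : FreeGroup (Fin N)) (f : FreeGroup (Fin N) → ℝ) :
    (PP v).indicator f g = (if g = v then f g else 0) +
      ∑ e ∈ (sph N (v.norm + 1)).filter (fun e => ini e = v), (PP e).indicator f g := by
  classical
  by_cases hv : g ∈ PP v
  · obtain ⟨l, hl⟩ := hv
    rw [Set.indicator_of_mem (show g ∈ PP v from ⟨l, hl⟩)]
    cases l with
    | nil =>
      rw [List.append_nil] at hl
      have hgv : g = v := FreeGroup.toWord_injective hl.symm
      rw [if_pos hgv, Finset.sum_eq_zero, add_zero]
      intro e he
      apply Set.indicator_of_notMem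
      intro hp
      rw [Finset.mem_filter, mem_sph] at he
      have h1 := (show e.toWord <+: g.toWord from hp).length_le
      have h2 : e.toWord.length = v.norm + 1 := he.1
      have h3 : g.toWord.length = v.norm := by rw [← hl]; rfl
      omega
    | cons b l' =>
      have hgv : g ≠ v := by
        rintro rfl
        have := congrArg List.length hl
        rw [List.length_append, List.length_cons] at this
        omega
      have hred : FreeGroup.IsReduced (v.toWord ++ [b]) := by
        have h1 : FreeGroup.IsReduced g.toWord := FreeGroup.isReduced_toWord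
        rw [← hl] at h1
        exact h1.seg ⟨[], l', by simp⟩
      set e₀ : FreeGroup (Fin N) := FreeGroup.mk (v.toWord ++ [b]) with he₀
      have hw : e₀.toWord = v.toWord ++ [b] := toWord_mk_red hred
      have hmem : e₀ ∈ (sph N (v.norm + 1)).filter (fun e => ini e = v) := by
        rw [Finset.mem_filter, mem_sph]
        refine ⟨?_, ?_⟩
        · show e₀.toWord.length = _
          rw [hw, List.length_append, List.length_singleton]
          rfl
        · show FreeGroup.mk e₀.toWord.dropLast = v
          rw [hw, List.dropLast_concat, FreeGroup.mk_toWord]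
      have hp0 : g ∈ PP e₀ := by
        show e₀.toWord <+: g.toWord
        rw [hw, ← hl]
        exact ⟨l', by simp⟩
      rw [if_neg hgv, zero_add, Finset.sum_eq_single e₀]
      · rw [Set.indicator_of_mem hp0]
      · intro e he hne
        apply Set.indicator_of_notMem
        intro hp
        apply hne
        rw [Finset.mem_filter, mem_sph] at he hmem
        apply FreeGroup.toWord_injective
        have h1 : e.toWord <+: g.toWord := hp
        have h2 : e₀.toWord <+: g.toWord := hp0
        have h3 : e.toWord.length = e₀.toWord.length := he.1.trans hmem.1.symm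
        exact (List.prefix_of_prefix_length_le h1 h2 h3.le).eq_of_length h3
      · intro h
        exact absurd hmem h
  · rw [Set.indicator_of_notMem hv]
    have hgv : g ≠ v := by
      rintro rfl
      exact hv (List.prefix_refl _)
    rw [if_neg hgv, zero_add, Finset.sum_eq_zero]
    intro e he
    apply Set.indicator_of_notMem
    intro hp
    apply hv
    rw [Finset.mem_filter, mem_sph] at he
    have h1 : e.toWord <+: g.toWord := hp
    have h2 : v.toWord = e.toWord.dropLast := by
      have h3 : FreeGroup.IsReduced e.toWord.dropLast :=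
        (FreeGroup.isReduced_toWord (x := e)).seg (List.dropLast_prefix _).isInfix
      have h4 : FreeGroup.mk e.toWord.dropLast = v := he.2
      rw [← h4, toWord_mk_red h3]
    show v.toWord <+: g.toWord
    rw [h2]
    exact (List.dropLast_prefix _).trans h1

theorem t (h : S_FIN) : S_Z1 := by
  classical
  intro N A hA x k hMem s hs
  have hS := (h N A hA).2 x s hs
  have hSc : ∀ c : ℝ, Summable fun g : FreeGroup (Fin N) =>
      Real.exp (-s * ((lenFn A x).L g - c)) := by
    intro c
    refine (hS.mul_right (Real.exp (s * c))).congr fun g => ?_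
    rw [← Real.exp_add]
    congr 1
    ring
  have h1 : ∀ v, Summable fun w : {w : FreeGroup (Fin N) //
      FreeGroup.IsReduced (v.toWord ++ w.toWord)} =>
      Real.exp (-s * ((lenFn A x).L (v * w.1) - (lenFn A x).L v)) := by
    intro v
    have hinj : Function.Injective (fun w : {w : FreeGroup (Fin N) //
        FreeGroup.IsReduced (v.toWord ++ w.toWord)} => v * w.1) := by
      intro w w' hww
      exact Subtype.ext (mul_left_cancel hww)
    exact (hSc ((lenFn A x).L v)).comp_injective hinj
  refine ⟨h1, ?_, ?_, ?_⟩
  · intro v
    have h2 := (h1 v).le_tsum ⟨1, by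
      rw [FreeGroup.toWord_one, List.append_nil]
      exact FreeGroup.isReduced_toWord⟩ (fun _ _ => (Real.exp_pos _).le)
    simp only [mul_one, sub_self, mul_zero, Real.exp_zero] at h2
    exact h2
  · intro t v hk ht
    have hv0 : v.toWord ≠ [] := by
      intro h0
      have h2 : v.norm = 0 := by
        show v.toWord.length = 0
        rw [h0]; rfl
      have := hMem.1
      omega
    have htv : (t * v).toWord = t.toWord ++ v.toWord := toWord_mul_red ht
    have hiff : ∀ w : FreeGroup (Fin N), FreeGroup.IsReduced ((t * v).toWord ++ w.toWord) ↔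
        FreeGroup.IsReduced (v.toWord ++ w.toWord) := by
      intro w
      rw [htv]
      constructor
      · intro h2
        exact h2.seg ⟨t.toWord, [], by simp⟩
      · intro h2
        exact FreeGroup.IsReduced.append_overlap ht h2 hv0
    unfold Zs
    rw [← (Equiv.subtypeEquivRight hiff).tsum_eq]
    refine tsum_congr fun w => ?_
    have h3 : FreeGroup.IsReduced (t.toWord ++ v.toWord ++ w.1.toWord) := by
      rw [← htv]; exact w.2
    have h4 := hMem.2 t v w.1 hk h3
    show Real.exp (-s * ((lenFn A x).L (t * v * w.1) - (lenFn A x).L (t * v))) =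
      Real.exp (-s * ((lenFn A x).L (v * w.1) - (lenFn A x).L v))
    congr 2
    linarith
  · intro v
    rw [Zs_eq]
    simp_rw [ind_eq v]
    have hsum : ∀ e : FreeGroup (Fin N), Summable fun g => (PP e).indicator
        (fun g => Real.exp (-s * ((lenFn A x).L g - (lenFn A x).L v))) g := fun e =>
      (hSc _).indicator _
    have hsing : HasSum (fun g : FreeGroup (Fin N) => if g = v then
        Real.exp (-s * ((lenFn A x).L g - (lenFn A x).L v)) else 0) 1 := by
      have h2 := hasSum_single (f := fun g : FreeGroup (Fin N) => if g = v then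
        Real.exp (-s * ((lenFn A x).L g - (lenFn A x).L v)) else 0) v
        (fun g hg => if_neg hg)
      simpa using h2
    rw [hsing.summable.tsum_add (summable_sum fun e _ => hsum e), hsing.tsum_eq,
      Summable.tsum_finsetSum fun e _ => hsum e]
    congr 1
    refine Finset.sum_congr rfl fun e _ => ?_
    rw [Zs_eq, ← tsum_mul_left]
    refine tsum_congr fun g => ?_
    by_cases hg : g ∈ PP e
    · rw [Set.indicator_of_mem hg, Set.indicator_of_mem hg, ← Real.exp_add]
      congr 1
      ring
    · rw [Set.indicator_of_notMem hg, Set.indicator_of_notMem hg, mul_zero]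

end Pool.Agent.N866.PSC3.Z1
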