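import Pool.Agent.N119.PSL.Seg
import Mathlib
import Pool.Agent.N119.PS.Stm3
import Pool.Agent.N119.PSL.Z1

/-!
# Project PSC3 (helper119), leaf Z2 (helper574): divergence at the critical exponent
-/

set_option autoImplicit false

/-! Written by helper574 (originally in `Pool/Agent/N574/PSC3/Z2.lean`). -/

namespace Pool.Agent.N574.PSC3.Z2

open Pool.Agent.H472R3 Pool.Agent.H67R3.FSR Pool.Agent.H67R4.SR MeasureTheory Topology Filter
open Pool.Agent.N119.PS Pool.Agent.N866.PSC3.Z1

variable {N : ℕ}

/-- properties of the relative series, from summability -/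
theorem z1 (A : FTree N) (x : A.T) (s : ℝ)
    (hS : Summable fun g : FreeGroup (Fin N) => Real.exp (-s * (lenFn A x).L g)) :
    (∀ v, 1 ≤ Zs A x s v) ∧
    (∀ k, Mem A x k → ∀ t v : FreeGroup (Fin N), k ≤ v.norm →
      FreeGroup.IsReduced (t.toWord ++ v.toWord) → Zs A x s (t * v) = Zs A x s v) ∧
    (∀ v, Zs A x s v = 1 + ∑ e ∈ (sph N (v.norm + 1)).filter (fun e => ini e = v),
      Real.exp (-s * ((lenFn A x).L e - (lenFn A x).L v)) * Zs A x s e) ∧
    Zs A x s 1 = ∑' g : FreeGroup (Fin N), Real.exp (-s * (lenFn A x).L g) := by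
  classical
  have hSc : ∀ c : ℝ, Summable fun g : FreeGroup (Fin N) =>
      Real.exp (-s * ((lenFn A x).L g - c)) := by
    intro c
    refine (hS.mul_right (Real.exp (s * c))).congr fun g => ?_
    rw [← Real.exp_add]
    congr 1
    ring
  have h1 : ∀ v, Summable fun w : {w : FreeGroup (Fin N) //
      FreeGroup.IsReduced (v.toWord ++ w.toWord)} =>
      Real.exp (-s * ((lenFn A x).L (v * w.1) - (lenFn A x).L v)) := by
    intro v
    have hinj : Function.Injective (fun w : {w : FreeGroup (Fin N) //
        FreeGroup.IsReduced (v.toWord ++ w.toWord)} => v * w.1) := by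
      intro w w' hww
      exact Subtype.ext (mul_left_cancel hww)
    exact (hSc ((lenFn A x).L v)).comp_injective hinj
  refine ⟨?_, ?_, ?_, ?_⟩
  · intro v
    have h2 := (h1 v).le_tsum ⟨1, by
      rw [FreeGroup.toWord_one, List.append_nil]
      exact FreeGroup.isReduced_toWord⟩ (fun _ _ => (Real.exp_pos _).le)
    simp only [mul_one, sub_self, mul_zero, Real.exp_zero] at h2
    exact h2
  · intro k hMem t v hk ht
    have hv0 : v.toWord ≠ [] := by
      intro h0
      have h2 : v.norm = 0 := by
        show v.toWord.length = 0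
        rw [h0]; rfl
      have := hMem.1
      omega
    have htv : (t * v).toWord = t.toWord ++ v.toWord := toWord_mul_red ht
    have hiff : ∀ w : FreeGroup (Fin N), FreeGroup.IsReduced ((t * v).toWord ++ w.toWord) ↔
        FreeGroup.IsReduced (v.toWord ++ w.toWord) := by
      intro w
      rw [htv]
      constructor
      · intro h2
        exact h2.seg ⟨t.toWord, [], by simp⟩
      · intro h2
        exact FreeGroup.IsReduced.append_overlap ht h2 hv0
    unfold Zs
    rw [← (Equiv.subtypeEquivRight hiff).tsum_eq]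
    refine tsum_congr fun w => ?_
    have h3 : FreeGroup.IsReduced (t.toWord ++ v.toWord ++ w.1.toWord) := by
      rw [← htv]; exact w.2
    have h4 := hMem.2 t v w.1 hk h3
    show Real.exp (-s * ((lenFn A x).L (t * v * w.1) - (lenFn A x).L (t * v))) =
      Real.exp (-s * ((lenFn A x).L (v * w.1) - (lenFn A x).L v))
    congr 2
    linarith
  · intro v
    rw [Zs_eq]
    simp_rw [ind_eq v]
    have hsum : ∀ e : FreeGroup (Fin N), Summable fun g => (PP e).indicator
        (fun g => Real.exp (-s * ((lenFn A x).L g - (lenFn A x).L v))) g := fun e =>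
      (hSc _).indicator _
    have hsing : HasSum (fun g : FreeGroup (Fin N) => if g = v then
        Real.exp (-s * ((lenFn A x).L g - (lenFn A x).L v)) else 0) 1 := by
      have h2 := hasSum_single (f := fun g : FreeGroup (Fin N) => if g = v then
        Real.exp (-s * ((lenFn A x).L g - (lenFn A x).L v)) else 0) v
        (fun g hg => if_neg hg)
      simpa using h2
    rw [hsing.summable.tsum_add (summable_sum fun e _ => hsum e), hsing.tsum_eq,
      Summable.tsum_finsetSum fun e _ => hsum e]
    congr 1
    refine Finset.sum_congr rfl fun e _ => ?_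
    rw [Zs_eq, ← tsum_mul_left]
    refine tsum_congr fun g => ?_
    by_cases hg : g ∈ PP e
    · rw [Set.indicator_of_mem hg, Set.indicator_of_mem hg, ← Real.exp_add]
      congr 1
      ring
    · rw [Set.indicator_of_notMem hg, Set.indicator_of_notMem hg, mul_zero]
  · rw [Zs_eq]
    refine tsum_congr fun g => ?_
    have hg : g ∈ PP (1 : FreeGroup (Fin N)) := by
      show (1 : FreeGroup (Fin N)).toWord <+: g.toWord
      rw [FreeGroup.toWord_one]
      exact List.nil_prefix
    rw [Set.indicator_of_mem hg, (lenFn A x).one, sub_zero]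

theorem norm_ini (e : FreeGroup (Fin N)) : (ini e).norm = e.norm - 1 := by
  have h3 : FreeGroup.IsReduced e.toWord.dropLast :=
    (FreeGroup.isReduced_toWord (x := e)).seg (List.dropLast_prefix _).isInfix
  show (FreeGroup.mk e.toWord.dropLast).toWord.length = e.toWord.length - 1
  rw [toWord_mk_red h3, List.length_dropLast]

/-- the sum over a sphere, by initial words -/
theorem sum_sph_succ (n : ℕ) (f : FreeGroup (Fin N) → ℝ) :
    ∑ e ∈ sph N (n + 1), f e =
      ∑ v ∈ sph N n, ∑ e ∈ (sph N (v.norm + 1)).filter (fun e => ini e = v), f e := by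
  classical
  have h1 : ∀ e ∈ sph N (n + 1), ini e ∈ sph N n := by
    intro e he
    rw [mem_sph] at he ⊢
    rw [norm_ini, he]
    rfl
  rw [← Finset.sum_fiberwise_of_maps_to h1]
  refine Finset.sum_congr rfl fun v hv => ?_
  rw [mem_sph.1 hv]

/-- the finite sum of the first step, with an exponent `r` and weights `Z` -/
noncomputable def R (A : FTree N) (x : A.T) (r : ℝ) (Z : FreeGroup (Fin N) → ℝ)
    (v : FreeGroup (Fin N)) : ℝ :=
  ∑ e ∈ (sph N (v.norm + 1)).filter (fun e => ini e = v),
    Real.exp (-r * ((lenFn A x).L e - (lenFn A x).L v)) * Z e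

theorem norm_mul_red {t v : FreeGroup (Fin N)} (h : FreeGroup.IsReduced (t.toWord ++ v.toWord)) :
    (t * v).norm = t.norm + v.norm := by
  show (t * v).toWord.length = _
  rw [toWord_mul_red h, List.length_append]
  rfl

theorem ini_mul {t e : FreeGroup (Fin N)} (he : e.toWord ≠ [])
    (h : FreeGroup.IsReduced (t.toWord ++ e.toWord)) : ini (t * e) = t * ini e := by
  unfold ini
  rw [toWord_mul_red h, List.dropLast_append_of_ne_nil he]
  conv_rhs => rw [← FreeGroup.mk_toWord (x := t)]
  rw [FreeGroup.mul_mk]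

theorem ini_mul_last (e : FreeGroup (Fin N)) (he : e.toWord ≠ []) :
    ∃ w : FreeGroup (Fin N), e = ini e * w ∧ w.toWord = [e.toWord.getLast he] ∧
      FreeGroup.IsReduced ((ini e).toWord ++ w.toWord) ∧ (ini e).toWord = e.toWord.dropLast := by
  have h3 : FreeGroup.IsReduced e.toWord.dropLast :=
    (FreeGroup.isReduced_toWord (x := e)).seg (List.dropLast_prefix _).isInfix
  have h4 : (ini e).toWord = e.toWord.dropLast := toWord_mk_red h3
  have h5 : FreeGroup.IsReduced [e.toWord.getLast he] :=
    (FreeGroup.isReduced_toWord (x := e)).seg ⟨e.toWord.dropLast, [], by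
      rw [List.append_nil, List.dropLast_append_getLast]⟩
  have h6 : (FreeGroup.mk [e.toWord.getLast he]).toWord = [e.toWord.getLast he] :=
    toWord_mk_red h5
  refine ⟨FreeGroup.mk [e.toWord.getLast he], ?_, h6, ?_, h4⟩
  · unfold ini
    rw [FreeGroup.mul_mk, List.dropLast_append_getLast, FreeGroup.mk_toWord]
  · rw [h4, h6, List.dropLast_append_getLast]
    exact FreeGroup.isReduced_toWord

theorem R_mul (A : FTree N) (x : A.T) (r : ℝ) (Z : FreeGroup (Fin N) → ℝ) (k : ℕ)
    (hMem : Mem A x k)
    (hZ : ∀ t v : FreeGroup (Fin N), k ≤ v.norm →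
      FreeGroup.IsReduced (t.toWord ++ v.toWord) → Z (t * v) = Z v)
    (t v : FreeGroup (Fin N)) (hk : k ≤ v.norm)
    (ht : FreeGroup.IsReduced (t.toWord ++ v.toWord)) : R A x r Z (t * v) = R A x r Z v := by
  classical
  have hv0 : v.toWord ≠ [] := by
    intro h0
    have h2 : v.norm = 0 := by
      show v.toWord.length = 0
      rw [h0]; rfl
    have := hMem.1
    omega
  unfold R
  symm
  refine Finset.sum_bij (fun e _ => t * e) ?_ ?_ ?_ ?_
  · intro e he
    rw [Finset.mem_filter, mem_sph] at he ⊢
    obtain ⟨he1, he2⟩ := he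
    have hne : e.toWord ≠ [] := by
      intro h0
      have : e.norm = 0 := by
        show e.toWord.length = 0
        rw [h0]; rfl
      omega
    obtain ⟨w, hw1, hw2, hw3, hw4⟩ := ini_mul_last e hne
    have hred : FreeGroup.IsReduced (t.toWord ++ e.toWord) := by
      have e1 : e.toWord = v.toWord ++ w.toWord := by
        have := toWord_mul_red hw3
        rw [← hw1, he2] at this
        exact this
      rw [e1, ← List.append_assoc]
      rw [he2] at hw3
      exact FreeGroup.IsReduced.append_overlap ht hw3 hv0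
    refine ⟨?_, ?_⟩
    · rw [norm_mul_red hred, norm_mul_red ht, he1]
      omega
    · rw [ini_mul hne hred, he2]
  · intro e _ e' _ hee
    exact mul_left_cancel hee
  · intro e he
    rw [Finset.mem_filter, mem_sph] at he
    obtain ⟨he1, he2⟩ := he
    have hne : e.toWord ≠ [] := by
      intro h0
      have : e.norm = 0 := by
        show e.toWord.length = 0
        rw [h0]; rfl
      omega
    obtain ⟨w, hw1, hw2, hw3, hw4⟩ := ini_mul_last e hne
    rw [he2] at hw1 hw3
    have htv : (t * v).toWord = t.toWord ++ v.toWord := toWord_mul_red ht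
    have hvw : FreeGroup.IsReduced (v.toWord ++ w.toWord) := by
      rw [htv] at hw3
      exact hw3.seg ⟨t.toWord, [], by simp⟩
    have hvww : (v * w).toWord = v.toWord ++ w.toWord := toWord_mul_red hvw
    have hwne : w.toWord ≠ [] := by rw [hw2]; simp
    refine ⟨v * w, ?_, ?_⟩
    · rw [Finset.mem_filter, mem_sph]
      refine ⟨?_, ?_⟩
      · rw [norm_mul_red hvw]
        show v.norm + w.toWord.length = _
        rw [hw2]
        rfl
      · unfold ini
        rw [hvww, List.dropLast_append_of_ne_nil hwne, hw2]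
        simp [FreeGroup.mk_toWord]
    · rw [hw1, mul_assoc]
  · intro e he
    rw [Finset.mem_filter, mem_sph] at he
    obtain ⟨he1, he2⟩ := he
    have hne : e.toWord ≠ [] := by
      intro h0
      have : e.norm = 0 := by
        show e.toWord.length = 0
        rw [h0]; rfl
      omega
    obtain ⟨w, hw1, hw2, hw3, hw4⟩ := ini_mul_last e hne
    rw [he2] at hw1 hw3
    have hred3 : FreeGroup.IsReduced (t.toWord ++ v.toWord ++ w.toWord) :=
      FreeGroup.IsReduced.append_overlap ht hw3 hv0
    have hred : FreeGroup.IsReduced (t.toWord ++ e.toWord) := by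
      have e1 : e.toWord = v.toWord ++ w.toWord := by
        have := toWord_mul_red hw3
        rw [← hw1] at this
        exact this
      rw [e1, ← List.append_assoc]
      exact hred3
    have h4 := hMem.2 t v w hk hred3
    rw [hZ t e (by omega) hred]
    congr 3
    rw [hw1, ← mul_assoc]
    linarith

/-- splitting a word of length at least `k` -/
theorem split (v : FreeGroup (Fin N)) (k : ℕ) (hk : k ≤ v.norm) :
    ∃ t v' : FreeGroup (Fin N), v = t * v' ∧ v'.norm = k ∧
      FreeGroup.IsReduced (t.toWord ++ v'.toWord) := by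
  have hv : FreeGroup.IsReduced v.toWord := FreeGroup.isReduced_toWord
  set m := v.norm - k with hm
  have h1 : FreeGroup.IsReduced (v.toWord.take m) :=
    hv.seg (List.take_prefix _ _).isInfix
  have h2 : FreeGroup.IsReduced (v.toWord.drop m) :=
    hv.seg (List.drop_suffix _ _).isInfix
  refine ⟨FreeGroup.mk (v.toWord.take m), FreeGroup.mk (v.toWord.drop m), ?_, ?_, ?_⟩
  · rw [FreeGroup.mul_mk, List.take_append_drop, FreeGroup.mk_toWord]
  · show (FreeGroup.mk (v.toWord.drop m)).toWord.length = k
    rw [toWord_mk_red h2, List.length_drop]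
    show v.norm - m = k
    omega
  · rw [toWord_mk_red h1, toWord_mk_red h2, List.take_append_drop]
    exact hv

/-- sum of the terms of the Poincare series over a sphere -/
noncomputable def S (A : FTree N) (x : A.T) (s : ℝ) (n : ℕ) : ℝ :=
  ∑ g ∈ sph N n, Real.exp (-s * (lenFn A x).L g)

/-- the same with weights -/
noncomputable def W (A : FTree N) (x : A.T) (s : ℝ) (Z : FreeGroup (Fin N) → ℝ) (n : ℕ) : ℝ :=
  ∑ g ∈ sph N n, Real.exp (-s * (lenFn A x).L g) * Z g

theorem W_succ (A : FTree N) (x : A.T) (s : ℝ) (Z : FreeGroup (Fin N) → ℝ) (n : ℕ) :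
    W A x s Z (n + 1) = ∑ v ∈ sph N n, Real.exp (-s * (lenFn A x).L v) * R A x s Z v := by
  unfold W R
  rw [sum_sph_succ]
  refine Finset.sum_congr rfl fun v _ => ?_
  rw [Finset.mul_sum]
  refine Finset.sum_congr rfl fun e _ => ?_
  rw [← mul_assoc, ← Real.exp_add]
  congr 2
  ring

theorem L_nonneg (A : FTree N) (x : A.T) (g : FreeGroup (Fin N)) : 0 ≤ (lenFn A x).L g := by
  rw [lenFn_L]
  exact dist_nonneg

theorem tot (A : FTree N) (x : A.T) (s : ℝ)
    (hS : Summable fun g : FreeGroup (Fin N) => Real.exp (-s * (lenFn A x).L g)) (k : ℕ) :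
    ∑' g : FreeGroup (Fin N), Real.exp (-s * (lenFn A x).L g) =
      ∑ j ∈ Finset.range k, S A x s j + W A x s (Zs A x s) k := by
  obtain ⟨h1, h2, h3, h4⟩ := z1 A x s hS
  induction k with
  | zero =>
    rw [Finset.range_zero, Finset.sum_empty, zero_add, ← h4]
    unfold W
    have h5 : sph N 0 = {1} := by
      ext g
      rw [mem_sph, Finset.mem_singleton, FreeGroup.norm_eq_zero]
    rw [h5, Finset.sum_singleton, (lenFn A x).one, mul_zero, Real.exp_zero, one_mul]
  | succ n ih =>
    rw [ih, Finset.sum_range_succ, add_assoc]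
    congr 1
    rw [W_succ]
    unfold W S
    rw [← Finset.sum_add_distrib]
    refine Finset.sum_congr rfl fun v _ => ?_
    have h6 : Zs A x s v = 1 + R A x s (Zs A x s) v := h3 v
    nth_rewrite 1 [h6]
    ring

/-- a criterion for the convergence of the Poincare series -/
theorem summable_of_S (A : FTree N) (x : A.T) (s C : ℝ)
    (h : ∀ n, ∑ j ∈ Finset.range n, S A x s j ≤ C) :
    Summable fun g : FreeGroup (Fin N) => Real.exp (-s * (lenFn A x).L g) := by
  classical
  refine summable_of_sum_le (c := C) (fun g => (Real.exp_pos _).le) fun E => ?_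
  set M := E.sup (fun g => g.norm) + 1 with hM
  have h1 : ∀ g ∈ E, g.norm ∈ Finset.range M := by
    intro g hg
    rw [Finset.mem_range, hM, Nat.lt_succ_iff]
    exact Finset.le_sup (f := fun g : FreeGroup (Fin N) => g.norm) hg
  rw [← Finset.sum_fiberwise_of_maps_to h1]
  refine le_trans (Finset.sum_le_sum fun j _ => ?_) (h M)
  refine Finset.sum_le_sum_of_subset_of_nonneg ?_ fun _ _ _ => (Real.exp_pos _).le
  intro g hg
  rw [Finset.mem_filter] at hg
  exact mem_sph.2 hg.2

theorem t (h1 : S_FIN) (h2 : S_POS) : S_Z2 := by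
  classical
  intro N hN A hA x k hMem B ε hε
  by_contra hcon
  push Not at hcon
  set h := critExp A with hh
  have hpos : 0 < h := h2 N hN A hA
  -- (1) summability at `h`
  have hsum : Summable fun g : FreeGroup (Fin N) => Real.exp (-h * (lenFn A x).L g) := by
    set C : ℝ := ∑ j ∈ Finset.range k, ((sph N j).card : ℝ) + (sph N k).card * B with hC
    have hb : ∀ s, h < s → s < h + ε →
        ∑' g : FreeGroup (Fin N), Real.exp (-s * (lenFn A x).L g) ≤ C := by
      intro s hs1 hs2
      have hS := (h1 N A hA).2 x s hs1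
      have hle : ∀ g : FreeGroup (Fin N), Real.exp (-s * (lenFn A x).L g) ≤ 1 := by
        intro g
        rw [Real.exp_le_one_iff]
        have := L_nonneg A x g
        nlinarith
      rw [tot A x s hS k, hC]
      refine add_le_add (Finset.sum_le_sum fun j _ => ?_) ?_
      · unfold S
        refine le_trans (Finset.sum_le_sum fun g _ => hle g) ?_
        rw [Finset.sum_const, nsmul_eq_mul, mul_one]
      · unfold W
        have h5 : ∀ g ∈ sph N k, Real.exp (-s * (lenFn A x).L g) * Zs A x s g ≤ B := by
          intro g hg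
          have h6 := hcon s hs1 hs2 g (mem_sph.1 hg)
          have h7 := (z1 A x s hS).1 g
          have h8 := hle g
          have h9 := (Real.exp_pos (-s * (lenFn A x).L g)).le
          nlinarith
        refine le_trans (Finset.sum_le_sum h5) ?_
        rw [Finset.sum_const, nsmul_eq_mul]
    refine summable_of_sum_le (c := C) (fun g => (Real.exp_pos _).le) fun E => ?_
    have hcont : Continuous fun s : ℝ => ∑ g ∈ E, Real.exp (-s * (lenFn A x).L g) := by
      fun_prop
    have hten : Tendsto (fun s : ℝ => ∑ g ∈ E, Real.exp (-s * (lenFn A x).L g)) (𝓝[>] h)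
        (𝓝 (∑ g ∈ E, Real.exp (-h * (lenFn A x).L g))) :=
      (hcont.tendsto h).mono_left nhdsWithin_le_nhds
    refine le_of_tendsto hten ?_
    have hI : Set.Ioo h (h + ε) ∈ 𝓝[>] h := Ioo_mem_nhdsGT (by linarith)
    filter_upwards [hI] with s hs
    have hS := (h1 N A hA).2 x s hs.1
    exact (hS.sum_le_tsum E fun _ _ => (Real.exp_pos _).le).trans (hb s hs.1 hs.2)
  obtain ⟨z1a, z1b, z1c, z1d⟩ := z1 A x h hsum
  set Z := Zs A x h with hZ
  -- (2) a bound for `Z`
  set B' : ℝ := ∑ v ∈ sph N k, Z v + 1 with hB'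
  have hZB : ∀ v ∈ sph N k, Z v ≤ B' := by
    intro v hv
    have := Finset.single_le_sum (f := Z) (fun u _ => by linarith [z1a u]) hv
    linarith
  have hB'pos : 1 ≤ B' := by
    have : 0 ≤ ∑ v ∈ sph N k, Z v := Finset.sum_nonneg fun u _ => by linarith [z1a u]
    linarith
  set q : ℝ := 1 - 1 / (2 * B') with hq
  have hq1 : q < 1 := by
    have : 0 < 1 / (2 * B') := by positivity
    linarith
  have hR : ∀ v ∈ sph N k, R A x h Z v < q * Z v := by
    intro v hv
    have e1 : Z v = 1 + R A x h Z v := z1c v
    have e2 := hZB v hv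
    have e3 := z1a v
    have e4 : Z v / (2 * B') < 1 := by
      rw [div_lt_one (by linarith)]
      linarith
    have e5 : q * Z v = Z v - Z v / (2 * B') := by
      rw [hq]; ring
    rw [e5]
    linarith
  have hcontR : ∀ v, Continuous fun s : ℝ => R A x s Z v := by
    intro v
    unfold R
    fun_prop
  have hev : ∀ᶠ s in 𝓝[<] h, ∀ v ∈ sph N k, R A x s Z v < q * Z v := by
    rw [Filter.eventually_all_finset]
    intro v hv
    have hten : Tendsto (fun s : ℝ => R A x s Z v) (𝓝[<] h) (𝓝 (R A x h Z v)) :=
      ((hcontR v).tendsto h).mono_left nhdsWithin_le_nhds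
    exact hten.eventually_lt_const (hR v hv)
  have hev2 : ∀ᶠ s in 𝓝[<] h, 0 < s ∧ s < h := by
    have hI : Set.Ioo 0 h ∈ 𝓝[<] h := Ioo_mem_nhdsLT hpos
    filter_upwards [hI] with s hs
    exact hs
  obtain ⟨s, hs1, hs2, hs3⟩ := (hev.and hev2).exists
  -- (3) convergence at `s`
  have hRall : ∀ v : FreeGroup (Fin N), k ≤ v.norm → R A x s Z v ≤ q * Z v := by
    intro v hv
    obtain ⟨t, v', rfl, hv', ht⟩ := split v k hv
    rw [R_mul A x s Z k hMem (z1b k hMem) t v' hv'.ge ht, z1b k hMem t v' hv'.ge ht]
    exact (hs1 v' (mem_sph.2 hv')).le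
  have hW : ∀ n, k ≤ n → W A x s Z (n + 1) ≤ q * W A x s Z n := by
    intro n hn
    rw [W_succ]
    unfold W
    rw [Finset.mul_sum]
    refine Finset.sum_le_sum fun v hv => ?_
    have e1 := hRall v (by rw [mem_sph.1 hv]; exact hn)
    have e2 := (Real.exp_pos (-s * (lenFn A x).L v)).le
    nlinarith
  have hW0 : ∀ n, 0 ≤ W A x s Z n := fun n => Finset.sum_nonneg fun v _ =>
    mul_nonneg (Real.exp_pos _).le (by linarith [z1a v])
  have hSW : ∀ n, S A x s n ≤ W A x s Z n := by
    intro n
    refine Finset.sum_le_sum fun v _ => ?_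
    exact le_mul_of_one_le_right (Real.exp_pos _).le (z1a v)
  have hS0 : ∀ n, 0 ≤ S A x s n := fun n => Finset.sum_nonneg fun v _ => (Real.exp_pos _).le
  have htel : ∀ n, (1 - q) * ∑ j ∈ Finset.range n, W A x s Z (k + j) ≤
      W A x s Z k - W A x s Z (k + n) := by
    intro n
    induction n with
    | zero => simp
    | succ n ih =>
      rw [Finset.sum_range_succ, mul_add]
      have := hW (k + n) (by omega)
      rw [← add_assoc]
      linarith
  have hbd : ∀ n, ∑ j ∈ Finset.range n, S A x s j ≤
      ∑ j ∈ Finset.range k, S A x s j + W A x s Z k / (1 - q) := by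
    intro n
    have e1 : ∑ j ∈ Finset.range n, S A x s j ≤ ∑ j ∈ Finset.range (k + n), S A x s j :=
      Finset.sum_le_sum_of_subset_of_nonneg
        (Finset.range_subset_range.2 (by omega)) fun j _ _ => hS0 j
    refine e1.trans ?_
    rw [Finset.sum_range_add]
    refine add_le_add le_rfl ?_
    rw [le_div_iff₀ (by linarith)]
    have e2 : ∑ j ∈ Finset.range n, S A x s (k + j) ≤ ∑ j ∈ Finset.range n, W A x s Z (k + j) :=
      Finset.sum_le_sum fun j _ => hSW (k + j)
    have e3 := htel n
    have e4 := hW0 (k + n)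
    have e5 : (∑ j ∈ Finset.range n, S A x s (k + j)) * (1 - q) ≤
        (∑ j ∈ Finset.range n, W A x s Z (k + j)) * (1 - q) :=
      mul_le_mul_of_nonneg_right e2 (by linarith)
    linarith
  have hSs := summable_of_S A x s _ hbd
  have hmem : s ∈ {s : ℝ | 0 ≤ s ∧ ∀ x : A.T, Summable fun g : FreeGroup (Fin N) =>
      Real.exp (-s * dist x (g • x))} := by
    refine ⟨hs2.le, fun y => ?_⟩
    refine Summable.of_nonneg_of_le (fun g => (Real.exp_pos _).le) (fun g => ?_)
      (hSs.mul_left (Real.exp (2 * s * dist x y)))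
    rw [← Real.exp_add, lenFn_L]
    apply Real.exp_le_exp.2
    have e1 : dist x (g • x) ≤ dist x y + dist y (g • y) + dist (g • y) (g • x) :=
      dist_triangle4 _ _ _ _
    rw [A.isometric, dist_comm y x] at e1
    nlinarith
  have hle : h ≤ s := by
    rw [hh]
    exact csInf_le ⟨0, fun r hr => hr.1⟩ hmem
  linarith

end Pool.Agent.N574.PSC3.Z2
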